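import Pool.Agent.Helper99.PG.Goals

/-!
# Packet PG-CPOT (MP_2b0227_gt): the potential of a cycle of the successor map
-/

set_option autoImplicit false

namespace Pool.Agent.Helper77.PG

open Pool.Agent.Helper99.PG
open scoped Classical

variable {V : Type} [Fintype V]

/-- direction of a port -/
noncomputable def dir (W : Finset V) (A : V → Bool) (p : Port V) : Bool :=
  if p.1 ∈ W then A p.1 else p.2

lemma suc_true (up dn : V → Option V) (W : Finset V) (A : V → Bool) (p : Port V) (w : V) :
    suc up dn W A p = some (w, true) ↔ dir W A p = true ∧ up p.1 = some w := by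
  have h : suc up dn W A p = nxt up dn p.1 (dir W A p) := rfl
  rw [h]
  cases hd : dir W A p with
  | true => simp [nxt]
  | false => simp [nxt]

lemma suc_false (up dn : V → Option V) (W : Finset V) (A : V → Bool) (p : Port V) (w : V) :
    suc up dn W A p = some (w, false) ↔ dir W A p = false ∧ dn p.1 = some w := by
  have h : suc up dn W A p = nxt up dn p.1 (dir W A p) := rfl
  rw [h]
  cases hd : dir W A p with
  | true => simp [nxt]
  | false => simp [nxt]

/-- indicator of the ports in direction `d` -/
noncomputable def vz (Z : Finset (Port V)) (d : Bool) (o : Option V) : ℝ :=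
  o.elim 0 fun v => if (v, d) ∈ Z then 1 else 0

lemma vz_none (Z : Finset (Port V)) (d : Bool) : vz Z d none = 0 := rfl

lemma vz_pos (Z : Finset (Port V)) (d : Bool) (v : V) (h : (v, d) ∈ Z) : vz Z d (some v) = 1 :=
  if_pos h

lemma vz_neg (Z : Finset (Port V)) (d : Bool) (v : V) (h : (v, d) ∉ Z) : vz Z d (some v) = 0 :=
  if_neg h

lemma up_inj (H : Hyp V) (v v' w : V) (h : H.up v = some w) (h' : H.up v' = some w) : v = v' := by
  have : H.α (some v) = H.α (some v') := h.trans h'.symm
  exact Option.some_injective _ (H.α.injective this)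

lemma dn_inj (H : Hyp V) (κ : Bool) (v v' w : V) (h : H.dn κ v = some w)
    (h' : H.dn κ v' = some w) : v = v' := by
  cases κ with
  | true =>
    have h1 : H.β.symm (some v) = some w := by simpa [Hyp.dn] using h
    have h2 : H.β.symm (some v') = some w := by simpa [Hyp.dn] using h'
    exact Option.some_injective _ (H.β.symm.injective (h1.trans h2.symm))
  | false =>
    have h1 : (Equiv.removeNone H.β).symm v = w := by simpa [Hyp.dn] using h
    have h2 : (Equiv.removeNone H.β).symm v' = w := by simpa [Hyp.dn] using h'
    exact (Equiv.removeNone H.β).symm.injective (h1.trans h2.symm)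

/-- the target against `β` for `κ = false` -/
lemma dn_false (H : Hyp V) (v : V) :
    (∀ u, H.β.symm (some v) = some u → H.dn false v = some u) ∧
    (H.β.symm (some v) = none → H.dn false v = H.β.symm none) := by
  have hdn : H.dn false v = some ((Equiv.removeNone H.β).symm v) := by simp [Hyp.dn]
  rw [hdn]
  have hsymm : (Equiv.removeNone H.β).symm v = Equiv.removeNone H.β.symm v := rfl
  rw [hsymm]
  constructor
  · intro u hu
    have := Equiv.removeNone_some H.β.symm (x := v) ⟨u, hu⟩
    rw [this, hu]
  · intro hn
    exact Equiv.removeNone_none H.β.symm hn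

section main

variable (H : Hyp V) (κ : Bool) (W : Finset V) (A : V → Bool) (Z : Finset (Port V))

lemma some_port_up (hprev : ∀ q ∈ Z, ∃ p ∈ Z, suc H.up (H.dn κ) W A p = some q) (v w : V)
    (hw : H.up v = some w) (hZ : (w, true) ∈ Z) :
    ∃ d, (v, d) ∈ Z ∧ dir W A (v, d) = true := by
  obtain ⟨p, hp, hs⟩ := hprev _ hZ
  rw [suc_true] at hs
  have h1 := up_inj H p.1 v w hs.2 hw
  refine ⟨p.2, ?_, ?_⟩
  · rw [← h1]
    exact hp
  · rw [← h1]
    exact hs.1

lemma some_port_dn (hprev : ∀ q ∈ Z, ∃ p ∈ Z, suc H.up (H.dn κ) W A p = some q) (v u : V)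
    (hu : H.dn κ v = some u) (hZ : (u, false) ∈ Z) :
    ∃ d, (v, d) ∈ Z ∧ dir W A (v, d) = false := by
  obtain ⟨p, hp, hs⟩ := hprev _ hZ
  rw [suc_false] at hs
  have h1 := dn_inj H κ p.1 v u hs.2 hu
  refine ⟨p.2, ?_, ?_⟩
  · rw [← h1]
    exact hp
  · rw [← h1]
    exact hs.1

lemma next_up (hnext : ∀ p ∈ Z, ∃ q ∈ Z, suc H.up (H.dn κ) W A p = some q) (v : V) (d : Bool)
    (h : (v, d) ∈ Z) (hd : dir W A (v, d) = true) : vz Z true (H.up v) = 1 := by
  obtain ⟨⟨w, e⟩, hq, hs⟩ := hnext _ h
  cases e with
  | true =>
    rw [suc_true] at hs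
    rw [hs.2]
    exact vz_pos Z true w hq
  | false =>
    rw [suc_false, hd] at hs
    exact absurd hs.1 (by simp)

lemma next_dn (hnext : ∀ p ∈ Z, ∃ q ∈ Z, suc H.up (H.dn κ) W A p = some q) (v : V) (d : Bool)
    (h : (v, d) ∈ Z) (hd : dir W A (v, d) = false) : vz Z false (H.dn κ v) = 1 := by
  obtain ⟨⟨w, e⟩, hq, hs⟩ := hnext _ h
  cases e with
  | false =>
    rw [suc_false] at hs
    rw [hs.2]
    exact vz_pos Z false w hq
  | true =>
    rw [suc_true, hd] at hs
    exact absurd hs.1 (by simp)

lemma vz_up_zero (hprev : ∀ q ∈ Z, ∃ p ∈ Z, suc H.up (H.dn κ) W A p = some q) (v : V)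
    (h : ∀ d, (v, d) ∈ Z → dir W A (v, d) = false) : vz Z true (H.up v) = 0 := by
  cases hu : H.up v with
  | none => rfl
  | some w =>
    apply vz_neg
    intro hw
    obtain ⟨d, h1, h2⟩ := some_port_up H κ W A Z hprev v w hu hw
    rw [h d h1] at h2
    exact absurd h2 (by simp)

lemma vz_dn_zero (hprev : ∀ q ∈ Z, ∃ p ∈ Z, suc H.up (H.dn κ) W A p = some q) (v : V)
    (h : ∀ d, (v, d) ∈ Z → dir W A (v, d) = true) : vz Z false (H.dn κ v) = 0 := by
  cases hu : H.dn κ v with
  | none => rfl
  | some w =>
    apply vz_neg
    intro hw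
    obtain ⟨d, h1, h2⟩ := some_port_dn H κ W A Z hprev v w hu hw
    rw [h d h1] at h2
    exact absurd h2 (by simp)

/-- conservation -/
lemma cons (hnext : ∀ p ∈ Z, ∃ q ∈ Z, suc H.up (H.dn κ) W A p = some q)
    (hprev : ∀ q ∈ Z, ∃ p ∈ Z, suc H.up (H.dn κ) W A p = some q)
    (hinj : ∀ p ∈ Z, ∀ p' ∈ Z, suc H.up (H.dn κ) W A p = suc H.up (H.dn κ) W A p' → p = p')
    (v : V) : vz Z true (some v) + vz Z false (some v) =
      vz Z true (H.up v) + vz Z false (H.dn κ v) := by
  by_cases hW : v ∈ W
  · have hdir : ∀ d, dir W A (v, d) = A v := fun d => if_pos hW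
    have hnot : ¬ ((v, true) ∈ Z ∧ (v, false) ∈ Z) := by
      rintro ⟨h1, h2⟩
      have := hinj _ h1 _ h2 (by
        change nxt _ _ v (dir W A (v, true)) = nxt _ _ v (dir W A (v, false))
        rw [hdir, hdir])
      simp at this
    by_cases hex : ∃ d, (v, d) ∈ Z
    · obtain ⟨d, hd⟩ := hex
      have hL : vz Z true (some v) + vz Z false (some v) = 1 := by
        cases d with
        | true =>
          rw [vz_pos Z true v hd, vz_neg Z false v (fun h => hnot ⟨hd, h⟩)]
          norm_num
        | false =>
          rw [vz_pos Z false v hd, vz_neg Z true v (fun h => hnot ⟨h, hd⟩)]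
          norm_num
      rw [hL]
      cases hA : A v with
      | true =>
        rw [next_up H κ W A Z hnext v d hd (by rw [hdir, hA]),
          vz_dn_zero H κ W A Z hprev v (fun d' _ => by rw [hdir, hA])]
        norm_num
      | false =>
        rw [next_dn H κ W A Z hnext v d hd (by rw [hdir, hA]),
          vz_up_zero H κ W A Z hprev v (fun d' _ => by rw [hdir, hA])]
        norm_num
    · push Not at hex
      rw [vz_neg Z true v (hex true), vz_neg Z false v (hex false),
        vz_up_zero H κ W A Z hprev v (fun d h => absurd h (hex d)),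
        vz_dn_zero H κ W A Z hprev v (fun d h => absurd h (hex d))]
  · have hdir : ∀ d, dir W A (v, d) = d := fun d => if_neg hW
    have h1 : vz Z true (some v) = vz Z true (H.up v) := by
      by_cases h : (v, true) ∈ Z
      · rw [vz_pos Z true v h, next_up H κ W A Z hnext v true h (hdir true)]
      · rw [vz_neg Z true v h, vz_up_zero H κ W A Z hprev v (fun d hd => by
          rw [hdir]
          cases d with
          | true => exact absurd hd h
          | false => rfl)]
    have h2 : vz Z false (some v) = vz Z false (H.dn κ v) := by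
      by_cases h : (v, false) ∈ Z
      · rw [vz_pos Z false v h, next_dn H κ W A Z hnext v false h (hdir false)]
      · rw [vz_neg Z false v h, vz_dn_zero H κ W A Z hprev v (fun d hd => by
          rw [hdir]
          cases d with
          | false => exact absurd hd h
          | true => rfl)]
    rw [h1, h2]

/-- the function `zq` -/
noncomputable def zqf (e : Option V) : ℝ :=
  e.elim (vz Z false (H.β.symm none)) fun v => vz Z false (some v)

lemma zqf_none : zqf H Z none = vz Z false (H.β.symm none) := rfl

lemma zqf_some (v : V) : zqf H Z (some v) = vz Z false (some v) := rfl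

lemma βsymm_none_ne : H.β.symm none ≠ none := by
  intro h
  apply H.hβ
  have := congrArg H.β h
  rw [Equiv.apply_symm_apply] at this
  exact this.symm

lemma zqf_symm_none : zqf H Z none = zqf H Z (H.β.symm none) := by
  rw [zqf_none]
  cases h : H.β.symm none with
  | none => exact absurd h (βsymm_none_ne H)
  | some v => rfl

lemma zq_κ (hprev : ∀ q ∈ Z, ∃ p ∈ Z, suc H.up (H.dn κ) W A p = some q) (hκ : κ = true) :
    zqf H Z none = 0 := by
  rw [zqf_none]
  cases h : H.β.symm none with
  | none => rfl
  | some v =>
    apply vz_neg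
    intro hv
    obtain ⟨p, _, hs⟩ := hprev _ hv
    rw [suc_false] at hs
    have h2 := hs.2
    subst hκ
    have h3 : H.β.symm (some p.1) = some v := by simpa [Hyp.dn] using h2
    have := H.β.symm.injective (h3.trans h.symm)
    exact absurd this (by simp)

lemma zq_symm (hprev : ∀ q ∈ Z, ∃ p ∈ Z, suc H.up (H.dn κ) W A p = some q) (v : V) :
    zqf H Z (H.β.symm (some v)) = vz Z false (H.dn κ v) := by
  cases κ with
  | true =>
    have hdn : H.dn true v = H.β.symm (some v) := by simp [Hyp.dn]
    rw [hdn]
    cases h : H.β.symm (some v) with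
    | none => exact zq_κ H true W A Z hprev rfl
    | some u => rfl
  | false =>
    cases h : H.β.symm (some v) with
    | none => rw [(dn_false H v).2 h, zqf_none]
    | some u => rw [(dn_false H v).1 u h, zqf_some]

lemma zp_α (hprev : ∀ q ∈ Z, ∃ p ∈ Z, suc H.up (H.dn κ) W A p = some q) :
    vz Z true (H.α none) = 0 := by
  cases h : H.α none with
  | none => rfl
  | some w =>
    apply vz_neg
    intro hw
    obtain ⟨p, _, hs⟩ := hprev _ hw
    rw [suc_true] at hs
    have h2 : H.α (some p.1) = some w := hs.2
    have := H.α.injective (h2.trans h.symm)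
    exact absurd this (by simp)

end main

theorem cycPot : GoalCycPot := by
  intro hC V _ _ H κ W A hR
  obtain ⟨Z, hne, hnext, hprev, hinj, hconst⟩ := hC H.up (H.dn κ) W A hR
  have hi : ∀ e, vz Z true e - vz Z true (H.α e) = zqf H Z (H.β.symm e) - zqf H Z e := by
    intro e
    cases e with
    | none => rw [vz_none, zp_α H κ W A Z hprev, ← zqf_symm_none, sub_self, sub_self]
    | some v =>
      have h1 := cons H κ W A Z hnext hprev hinj v
      rw [zq_symm H κ W A Z hprev v, zqf_some]
      change vz Z true (some v) - vz Z true (H.up v) = _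
      linarith
  obtain ⟨g, hg1, hg2⟩ := H.pot (fun e => vz Z true e - vz Z true (H.α e)) (by
      intro f hf
      have h1 : ∑ e, f e * vz Z true (H.α e) = ∑ e, f e * vz Z true e := by
        rw [← Equiv.sum_comp H.α (fun e => f e * vz Z true e)]
        exact Finset.sum_congr rfl fun e _ => by rw [hf e]
      simp only [mul_sub, Finset.sum_sub_distrib, h1, sub_self]) (by
      intro f hf
      have h1 : ∑ e, f e * zqf H Z (H.β.symm e) = ∑ e, f e * zqf H Z e := by
        rw [← Equiv.sum_comp H.β (fun e => f e * zqf H Z (H.β.symm e))]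
        exact Finset.sum_congr rfl fun e _ => by rw [hf e, Equiv.symm_apply_apply]
      simp only [hi, mul_sub, Finset.sum_sub_distrib, h1, sub_self])
  -- the potential on ports
  let F : Port V → ℝ := fun p => if p.2 then g (some p.1) else g (H.α (some p.1))
  have hFt : ∀ v, F (v, true) = g (some v) := fun v => rfl
  have hFf : ∀ v, F (v, false) = g (H.α (some v)) := fun v => rfl
  have hnone : g (H.α none) = g none := by
    have h := hg1 none
    rw [vz_none, zp_α H κ W A Z hprev] at h
    linarith
  have hFdn : ∀ v u, H.dn κ v = some u → F (u, false) = g (some v) := by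
    intro v u hu
    rw [hFf]
    have key : ∀ u', H.β.symm (some v) = some u' → g (H.α (some u')) = g (some v) := by
      intro u' hu'
      rw [← hg2, ← hu', Equiv.apply_symm_apply]
    cases κ with
    | true =>
      have h1 : H.β.symm (some v) = some u := by simpa [Hyp.dn] using hu
      exact key u h1
    | false =>
      cases h : H.β.symm (some v) with
      | some u' =>
        have h2 := (dn_false H v).1 u' h
        rw [hu] at h2
        have h3 : u = u' := Option.some_injective _ h2
        rw [h3]
        exact key u' h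
      | none =>
        have h2 := (dn_false H v).2 h
        rw [hu] at h2
        have h3 : H.β (some u) = none := by rw [h2, Equiv.apply_symm_apply]
        have h4 : H.β none = some v := by rw [← h, Equiv.apply_symm_apply]
        rw [← hg2, h3, ← h4, hg2, hnone]
  have hstep : ∀ p ∈ Z, ∀ q, suc H.up (H.dn κ) W A p = some q → F q = F p := by
    rintro ⟨v, d⟩ hp ⟨w, e⟩ hs
    have hq : (w, e) ∈ Z := by
      obtain ⟨q', hq', hs'⟩ := hnext _ hp
      rw [hs] at hs'
      rw [Option.some_injective _ hs']
      exact hq'
    cases e with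
    | true =>
      rw [suc_true] at hs
      have h1 : H.α (some v) = some w := hs.2
      rw [hFt, ← h1]
      cases d with
      | false => rfl
      | true =>
        rw [hFt]
        have h2 := hg1 (some v)
        rw [h1, vz_pos Z true v hp, vz_pos Z true w hq] at h2
        rw [h1]
        linarith
    | false =>
      rw [suc_false] at hs
      rw [hFdn v w hs.2]
      cases d with
      | true => rfl
      | false =>
        rw [hFf]
        have h2 := (hg1 (some v)).symm.trans (hi (some v))
        rw [zq_symm H κ W A Z hprev v, hs.2, zqf_some, vz_pos Z false v hp,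
          vz_pos Z false w hq] at h2
        linarith
  have hcon := hconst F hstep
  obtain ⟨p0, hp0⟩ := hne
  refine ⟨Z, vz Z true, zqf H Z, fun e => g e - F p0, ?_⟩
  exact {
    ne := ⟨p0, hp0⟩
    next := hnext
    prev := hprev
    inj := hinj
    zp_some := fun v => by
      by_cases h : (v, true) ∈ Z
      · rw [vz_pos Z true v h, if_pos h]
      · rw [vz_neg Z true v h, if_neg h]
    zp_none := rfl
    zp_α := zp_α H κ W A Z hprev
    zq_some := fun v => by
      rw [zqf_some]
      by_cases h : (v, false) ∈ Z
      · rw [vz_pos Z false v h, if_pos h]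
      · rw [vz_neg Z false v h, if_neg h]
    zq_none := zqf_symm_none H Z
    zq_κ := zq_κ H κ W A Z hprev
    face := fun e => by rw [hg2]
    hg := fun e => by
      have := hg1 e
      linarith
    hg' := fun e => by
      have h1 := hg1 e
      have h2 := hi e
      linarith
    zero := fun v h => by
      have := hcon _ h _ hp0
      rw [hFt] at this
      rw [this, sub_self]
    zero' := fun v h => by
      have := hcon _ h _ hp0
      rw [hFf] at this
      rw [this, sub_self] }

end Pool.Agent.Helper77.PG
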