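import Pool.Agent.Helper99.PG.Goals1

/-!
# Packet PG-RG (MP_2b0227_gt): the kernel of the circles at rings
-/

set_option autoImplicit false

namespace Pool.Agent.Helper77.PG

open Pool.Agent.Helper99.PG Pool.Agent.Helper52.C2 Pool.Agent.Helper68
open LaurentPolynomial
open scoped Classical

theorem rg_coeff_T_mul (f : LaurentPolynomial ℝ) (k i : ℤ) :
    (T k * f).coeff i = f.coeff (i - k) := by
  have h := AddMonoidAlgebra.coeff_single_mul_apply f (1 : ℝ) k i
  rw [one_mul, neg_add_eq_sub] at h
  exact h

theorem rg_ne : (1 - T 1 : LaurentPolynomial ℝ) ≠ 0 := by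
  intro h
  have h1 : (1 - T 1 : LaurentPolynomial ℝ).coeff 0 = 0 := by rw [h]; simp
  rw [← T_zero, AddMonoidAlgebra.coeff_sub, Finsupp.sub_apply, T_apply, T_apply] at h1
  norm_num at h1

theorem rg_geo (m : ℤ) : geo (m + 1) = (1 + T 1) * geo m - T 1 * geo (m - 1) := by
  refine mul_right_cancel₀ rg_ne ?_
  rw [sub_mul, mul_assoc, mul_assoc, geo_mul, geo_mul, geo_mul]
  have h1 : (T (m + 1) : LaurentPolynomial ℝ) = T 1 * T m := by rw [← T_add]; congr 1; ring
  have h2 : (T 1 * T (m - 1) : LaurentPolynomial ℝ) = T m := by rw [← T_add]; congr 1; ring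
  rw [mul_sub (T 1), h2, h1]
  ring

theorem rg_rec {J : Type} [DecidableEq J] (Φ : (J → Tg) → LaurentPolynomial ℝ) (hΦ : Affine Φ)
    (a : J → Tg) (k : J) (m : ℤ) :
    Φ (Function.update a k (U (m + 1))) = Φ (Function.update a k (U m)) +
      T 1 * Φ (Function.update a k (U m)) - T 1 * Φ (Function.update a k (U (m - 1))) := by
  rw [hΦ a k (U (m + 1)), hΦ a k (U m), hΦ a k (U (m - 1))]
  have hR : ∀ j : ℤ, (U j).R = T j := fun j => rfl
  have hF : ∀ j : ℤ, (U j).F = geo j := fun j => rfl
  simp only [hR, hF]
  rw [rg_geo m]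
  have h1 : (T (m + 1) : LaurentPolynomial ℝ) = T 1 * T m := by rw [← T_add]; congr 1; ring
  have h2 : (T m : LaurentPolynomial ℝ) = T 1 * T (m - 1) := by rw [← T_add]; congr 1; ring
  rw [h1]
  linear_combination (-(Φ (Function.update a k (U 0)))) * h2

/-- PHIRING -/
theorem phiRing : GoalPhiRing := by
  intro hAff hK hThree E _ _ G n hn
  obtain ⟨hA, hP⟩ := hAff G
  have key : ∀ (N : ℕ) (n : E → ℤ), (∀ e, 0 ≤ n e) → (∑ e, n e) ≤ N → ∀ i : ℤ,
      (G.Phi (fun e => U (n e))).coeff i = SK.cnt G.g G.c (SK.wt 1 n i) := by
    intro N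
    induction N with
    | zero =>
      intro n hn hs i
      have h0 : ∀ e, n e = 0 := by
        intro e
        have h1 : n e ≤ ∑ e, n e := Finset.single_le_sum (fun e _ => hn e) (Finset.mem_univ e)
        have := hn e
        push_cast at hs
        omega
      have h2 : n = fun e => if e ∈ (∅ : Finset E) then 1 else 0 := by
        funext e; simp [h0 e]
      have h3 := hP ∅
      rw [h2, h3, hK]
    | succ N ih =>
      intro n hn hs i
      by_cases h : ∀ e, n e ≤ 1
      · have h2 : n = fun e => if e ∈ (Finset.univ.filter fun e => n e = 1) then 1 else 0 := by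
          funext e
          have := h e
          have := hn e
          by_cases h1 : n e = 1
          · rw [if_pos (by simp [h1])]; exact h1
          · rw [if_neg (by simp [h1])]; omega
        have h3 := hP (Finset.univ.filter fun e => n e = 1)
        rw [← hK, ← congrArg G.K h2.symm, ← h3]
        have h4 : (fun e => U (n e))
            = fun e => U (if e ∈ (Finset.univ.filter fun e => n e = 1) then 1 else 0) := by
          funext e
          exact congrArg U (congrFun h2 e)
        rw [← h4]
      · push Not at h
        obtain ⟨e, he⟩ := h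
        have hcl : G.c (G.g e).1 = true := by
          simp only [BG.c, BG.g]
          exact decide_eq_true (G.lf_left e)
        have hcr : G.c (G.g e).2 = false := by
          simp only [BG.c, BG.g]
          exact decide_eq_false (G.rt_left e)
        set n1 : E → ℤ := n - Pi.single e 1 with hn1
        set n2 : E → ℤ := n1 - Pi.single e 1 with hn2
        have hn1e : n1 e = n e - 1 := by simp [hn1]
        have hn2e : n2 e = n e - 2 := by simp [hn2, hn1]; ring
        have hn1' : ∀ e', e' ≠ e → n1 e' = n e' := fun e' h' => by simp [hn1, h']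
        have hn2' : ∀ e', e' ≠ e → n2 e' = n e' := fun e' h' => by simp [hn2, hn1, h']
        have hp1 : ∀ e', 0 ≤ n1 e' := fun e' => by
          by_cases h' : e' = e
          · subst h'; omega
          · rw [hn1' e' h']; exact hn e'
        have hp2 : ∀ e', 0 ≤ n2 e' := fun e' => by
          by_cases h' : e' = e
          · subst h'; omega
          · rw [hn2' e' h']; exact hn e'
        have hs1 : ∑ e', n1 e' = ∑ e', n e' - 1 := by
          simp [hn1, Finset.sum_sub_distrib]
        have hs2 : ∑ e', n2 e' = ∑ e', n1 e' - 1 := by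
          simp [hn2, Finset.sum_sub_distrib]
        have hadd : n1 + Pi.single e 1 = n := by simp [hn1]
        have h3 := hThree G.g G.c 1 e hcl hcr n1 hp1 (by omega) i
        rw [hadd, ← hn2] at h3
        have i1 := ih n1 hp1 (by push_cast at hs; omega)
        have i2 := ih n2 hp2 (by push_cast at hs; omega)
        rw [← i1, ← i1, ← i2] at h3
        have hu : ∀ m : E → ℤ, (∀ e', e' ≠ e → m e' = n e') →
            (fun e' => U (m e')) = Function.update (fun e' => U (n e')) e (U (m e)) := by
          intro m hm
          funext e'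
          by_cases h' : e' = e
          · subst h'; rw [Function.update_self]
          · rw [Function.update_of_ne h', hm e' h']
        have hr := rg_rec G.Phi hA (fun e' => U (n e')) e (n e - 1)
        have e0 : n e - 1 + 1 = n e := by ring
        have e1 : n e - 1 - 1 = n e - 2 := by ring
        rw [e0, e1, ← hn1e, ← hn2e, ← hu n1 hn1', ← hu n2 hn2', ← hu n (fun _ _ => rfl)] at hr
        have hc := congrArg (fun f : LaurentPolynomial ℝ => f.coeff i) hr
        simp only [AddMonoidAlgebra.coeff_sub, AddMonoidAlgebra.coeff_add, Finsupp.sub_apply,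
          Finsupp.add_apply, rg_coeff_T_mul] at hc
        linarith
  obtain ⟨N, hN⟩ : ∃ N : ℕ, (∑ e, n e) ≤ N := ⟨(∑ e, n e).toNat, Int.self_le_toNat _⟩
  exact key N n hn hN

end Pool.Agent.Helper77.PG
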